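import Pool.Agent.T2H10.QA.Defs

set_option autoImplicit false

open scoped Classical

namespace Pool.Agent.T2H10.QA

variable {V : Type} [Fintype V]

/-- closed under commutators -/
def Closed (g : Submodule ℝ (Op V)) : Prop := ∀ X ∈ g, ∀ Y ∈ g, X * Y - Y * X ∈ g

theorem closed_lieGen (A B : Op V) : Closed (lieGen A B) := by
  intro X hX Y hY
  rw [lieGen, Submodule.mem_sInf] at hX hY ⊢
  intro W hW
  exact hW.2.2 X (hX W hW) Y (hY W hW)

theorem left_mem_lieGen (A B : Op V) : A ∈ lieGen A B := by
  rw [lieGen, Submodule.mem_sInf]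
  intro W hW
  exact hW.1

theorem right_mem_lieGen (A B : Op V) : B ∈ lieGen A B := by
  rw [lieGen, Submodule.mem_sInf]
  intro W hW
  exact hW.2.1

theorem lieGen_le (A B : Op V) (W : Submodule ℝ (Op V)) (hA : A ∈ W) (hB : B ∈ W)
    (hW : Closed W) : lieGen A B ≤ W := sInf_le ⟨hA, hB, hW⟩

/-- sums of `X_j` times diagonal operators -/
noncomputable def XF (f : V → (V → Bool) → ℝ) : Op V :=
  fun s t => ∑ j, if s = flip j t then ((f j t : ℝ) : ℂ) else 0

/-- diagonal operators -/
noncomputable def ZD (z : (V → Bool) → ℝ) : Op V := Matrix.diagonal fun s => ((z s : ℝ) : ℂ)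

theorem XF_add (f g : V → (V → Bool) → ℝ) : XF (fun j t => f j t + g j t) = XF f + XF g := by
  ext s t
  simp only [XF, Matrix.add_apply, ← Finset.sum_add_distrib]
  refine Finset.sum_congr rfl fun j _ => ?_
  split_ifs <;> simp

theorem XF_smul (c : ℝ) (f : V → (V → Bool) → ℝ) : XF (fun j t => c * f j t) = c • XF f := by
  ext s t
  simp only [XF, Matrix.smul_apply, Finset.smul_sum]
  refine Finset.sum_congr rfl fun j _ => ?_
  split_ifs <;> simp

theorem comm_ZD_XF (z : (V → Bool) → ℝ) (f : V → (V → Bool) → ℝ) :
    ZD z * XF f - XF f * ZD z = XF (fun j t => (z (flip j t) - z t) * f j t) := by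
  ext s t
  simp only [ZD, Matrix.sub_apply, Matrix.diagonal_mul, Matrix.mul_diagonal, XF, Finset.mul_sum,
    Finset.sum_mul, ← Finset.sum_sub_distrib]
  refine Finset.sum_congr rfl fun j _ => ?_
  split_ifs with h
  · subst h
    push_cast
    ring
  · simp

theorem two_step (g : Submodule ℝ (Op V)) (hg : Closed g) (z : (V → Bool) → ℝ)
    (f : V → (V → Bool) → ℝ) (hz : Complex.I • ZD z ∈ g) (hf : Complex.I • XF f ∈ g) :
    Complex.I • XF (fun j t => (z (flip j t) - z t) ^ 2 * f j t) ∈ g := by
  have h1 := hg _ hz _ hf
  have h2 := hg _ hz _ h1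
  have e1 : (Complex.I • ZD z) * (Complex.I • XF f) - (Complex.I • XF f) * (Complex.I • ZD z) =
      (-1 : ℂ) • XF (fun j t => (z (flip j t) - z t) * f j t) := by
    rw [← comm_ZD_XF]
    simp only [Matrix.smul_mul, Matrix.mul_smul, smul_smul, Complex.I_mul_I, smul_sub]
  rw [e1] at h2
  have e2 : (Complex.I • ZD z) * ((-1 : ℂ) • XF (fun j t => (z (flip j t) - z t) * f j t)) -
      ((-1 : ℂ) • XF (fun j t => (z (flip j t) - z t) * f j t)) * (Complex.I • ZD z) =
      (-1 : ℝ) • (Complex.I • XF (fun j t => (z (flip j t) - z t) ^ 2 * f j t)) := by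
    have := comm_ZD_XF z (fun j t => (z (flip j t) - z t) * f j t)
    have e3 : (fun j t => (z (flip j t) - z t) ^ 2 * f j t) =
        (fun (j : V) t => (z (flip j t) - z t) * ((z (flip j t) - z t) * f j t)) := by
      funext j t; ring
    rw [e3, ← this]
    simp only [Matrix.smul_mul, Matrix.mul_smul, smul_smul, smul_sub]
    ext s t
    simp
  rw [e2] at h2
  have := g.smul_mem (-1 : ℝ) h2
  rw [smul_smul] at this
  simpa using this

theorem poly_step (g : Submodule ℝ (Op V)) (hg : Closed g) (z : (V → Bool) → ℝ)
    (f : V → (V → Bool) → ℝ) (hz : Complex.I • ZD z ∈ g) (hf : Complex.I • XF f ∈ g)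
    (p : Polynomial ℝ) :
    Complex.I • XF (fun j t => p.eval ((z (flip j t) - z t) ^ 2) * f j t) ∈ g := by
  induction p using Polynomial.induction_on' with
  | add p q hp hq =>
    have := g.add_mem hp hq
    rw [← smul_add, ← XF_add] at this
    convert this using 3
    funext j t
    rw [Polynomial.eval_add]
    ring
  | monomial n a =>
    have key : ∀ m : ℕ, Complex.I • XF (fun j t => ((z (flip j t) - z t) ^ 2) ^ m * f j t) ∈ g := by
      intro m
      induction m with
      | zero => simpa using hf
      | succ m ih =>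
        have := two_step g hg z _ hz ih
        convert this using 3
        funext j t
        ring
    have := g.smul_mem a (key n)
    rw [smul_comm, ← XF_smul] at this
    convert this using 3
    funext j t
    rw [Polynomial.eval_monomial]
    ring

/-- the operator `∑ Z_j Z_k` over the edges in a relation -/
noncomputable def zE (F : V → V → Prop) (s : V → Bool) : ℝ :=
  2⁻¹ * ∑ j, ∑ k, if F j k then zz j s * zz k s else 0

theorem zz_flip (j k : V) (t : V → Bool) :
    zz k (flip j t) = if k = j then - zz k t else zz k t := by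
  unfold zz flip
  by_cases h : k = j
  · subst h
    simp
    cases t k <;> simp
  · simp [h]

theorem zz_sq (j : V) (t : V → Bool) : zz j t * zz j t = 1 := by
  unfold zz
  split_ifs <;> norm_num

theorem diff_zE (F : V → V → Prop) (hs : ∀ j k, F j k → F k j) (hi : ∀ j, ¬ F j j) (j : V)
    (t : V → Bool) : zE F (flip j t) - zE F t =
      -2 * (zz j t * ∑ k, if F j k then zz k t else 0) := by
  have e : ∀ a b, (if F a b then zz a (flip j t) * zz b (flip j t) else 0) -
      (if F a b then zz a t * zz b t else 0) =
      (if a = j then -2 * (zz j t * if F j b then zz b t else 0) else 0) +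
        (if b = j then -2 * (zz j t * if F j a then zz a t else 0) else 0) := by
    intro a b
    rw [zz_flip, zz_flip]
    by_cases hab : F a b
    · have hba := hs a b hab
      by_cases ha : a = j
      · subst ha
        have hb : b ≠ a := by rintro rfl; exact hi _ hab
        simp [hab, hb]
        ring
      · by_cases hb : b = j
        · subst hb
          simp [hab, hba, ha]
          ring
        · simp [ha, hb, hab]
    · have hba : ¬ F b a := fun h => hab (hs b a h)
      by_cases ha : a = j
      · subst ha
        by_cases hb : b = a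
        · subst hb; simp [hab]
        · simp [hab, hb]
      · by_cases hb : b = j
        · subst hb; simp [hab, hba, ha]
        · simp [hab, ha, hb]
  unfold zE
  rw [← mul_sub, ← Finset.sum_sub_distrib]
  simp only [← Finset.sum_sub_distrib, e, Finset.sum_add_distrib]
  rw [Finset.sum_comm (f := fun a b => if a = j then -2 * (zz j t * if F j b then zz b t else 0) else 0)]
  simp only [Finset.sum_ite_eq', Finset.mem_univ, if_true, ← Finset.mul_sum]
  ring

end Pool.Agent.T2H10.QA
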