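import Pool.Agent.T2H10.QA.A

set_option autoImplicit false

open scoped Classical

namespace Pool.Agent.T2H10.QA

variable {V : Type} [Fintype V]

theorem exists_poly (n : ℕ) : ∃ p : Polynomial ℝ, ∀ s : ℕ, s ≤ n →
    p.eval (4 * (s : ℝ) ^ 2) = if Odd s then 1 else 0 := by
  refine ⟨Lagrange.interpolate (Finset.range (n + 1)) (fun s : ℕ => 4 * (s : ℝ) ^ 2)
    (fun s => if Odd s then 1 else 0), fun s hs => ?_⟩
  have hinj : Set.InjOn (fun s : ℕ => 4 * (s : ℝ) ^ 2) (Finset.range (n + 1) : Set ℕ) := by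
    intro a _ b _ hab
    have h1 : (a : ℝ) ^ 2 = (b : ℝ) ^ 2 := by
      have : 4 * (a : ℝ) ^ 2 = 4 * (b : ℝ) ^ 2 := hab
      linarith
    have h2 := (sq_eq_sq₀ (Nat.cast_nonneg a) (Nat.cast_nonneg b)).1 h1
    exact_mod_cast h2
  exact Lagrange.eval_interpolate_at_node (fun s : ℕ => if Odd s then (1 : ℝ) else 0) hinj
    (Finset.mem_range.2 (by omega))

theorem sum_zz (T : Finset V) (t : V → Bool) : ∃ m : ℕ, m ≤ T.card ∧ (Odd m ↔ Odd T.card) ∧
    (∑ k ∈ T, zz k t) ^ 2 = (m : ℝ) ^ 2 := by
  have h : ∑ k ∈ T, zz k t = ((T.card : ℤ) - 2 * ((T.filter fun k => t k = true).card : ℤ) : ℤ) := by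
    have : ∀ k ∈ T, zz k t = 1 - 2 * (if t k = true then (1 : ℝ) else 0) := by
      intro k _
      unfold zz
      split_ifs <;> norm_num
    rw [Finset.sum_congr rfl this, Finset.sum_sub_distrib, ← Finset.mul_sum]
    simp
  have hle : (T.filter fun k => t k = true).card ≤ T.card := Finset.card_filter_le _ _
  refine ⟨((T.card : ℤ) - 2 * ((T.filter fun k => t k = true).card : ℤ)).natAbs, by omega, ?_, ?_⟩
  · rw [Int.natAbs_odd, Int.odd_iff, Nat.odd_iff]
    omega
  · rw [h, Nat.cast_natAbs, Int.cast_abs, sq_abs]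

theorem claimA (g : Submodule ℝ (Op V)) (hg : Closed g) (C : Set V) (F : V → V → Prop)
    (hs : ∀ j k, F j k → F k j) (hi : ∀ j, ¬ F j j)
    (hC : Complex.I • XF (fun j (_ : V → Bool) => if j ∈ C then (1 : ℝ) else 0) ∈ g)
    (hF : Complex.I • ZD (zE F) ∈ g) (E : Set V)
    (hE : ∀ j, j ∈ E ↔ (j ∈ C ∧ Odd {k | F j k}.ncard)) :
    Complex.I • XF (fun j (_ : V → Bool) => if j ∈ E then (1 : ℝ) else 0) ∈ g := by
  obtain ⟨p, hp⟩ := exists_poly (Fintype.card V)
  have := poly_step g hg (zE F) _ hF hC p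
  convert this using 3
  funext j t
  rw [diff_zE F hs hi j t]
  have h1 : (∑ k, if F j k then zz k t else 0) = ∑ k ∈ Finset.univ.filter (fun k => F j k), zz k t := by
    rw [Finset.sum_filter]
  obtain ⟨m, hm1, hm2, hm3⟩ := sum_zz (Finset.univ.filter (fun k => F j k)) t
  have h2 : (-2 * (zz j t * ∑ k, if F j k then zz k t else 0)) ^ 2 = 4 * (m : ℝ) ^ 2 := by
    rw [h1, ← hm3]
    have := zz_sq j t
    calc (-2 * (zz j t * ∑ k ∈ Finset.univ.filter (fun k => F j k), zz k t)) ^ 2 =
        4 * (zz j t * zz j t) * (∑ k ∈ Finset.univ.filter (fun k => F j k), zz k t) ^ 2 := by ring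
      _ = _ := by rw [this]; ring
  rw [h2, hp m (hm1.trans (Finset.card_le_univ _))]
  have h3 : {k | F j k}.ncard = (Finset.univ.filter (fun k => F j k)).card := by
    rw [← Set.ncard_coe_finset]
    congr 1
    ext k
    simp
  have h4 : (j ∈ E) ↔ (j ∈ C ∧ Odd m) := by
    rw [hE, hm2, ← h3]
  by_cases hj : j ∈ C <;> by_cases ho : Odd m <;> simp [h4, hj, ho]

theorem flip_flip (l : V) (s : V → Bool) : flip l (flip l s) = s := by
  funext x
  by_cases h : x = l
  · subst h; simp [flip]
  · simp [flip, h]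

theorem flip_comm (l m : V) (s : V → Bool) : flip l (flip m s) = flip m (flip l s) := by
  by_cases hlm : l = m
  · subst hlm; rfl
  funext x
  by_cases h : x = l
  · subst h; simp [flip, hlm]
  · by_cases h' : x = m
    · subst h'; simp [flip, h]
    · simp [flip, h, h']

theorem eq_flip_iff (l : V) (s t : V → Bool) : s = flip l t ↔ t = flip l s :=
  ⟨fun h => by rw [h, flip_flip], fun h => by rw [h, flip_flip]⟩

theorem PX_mul (l : V) (M : Op V) (s t : V → Bool) : (PX l * M) s t = M (flip l s) t := by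
  rw [Matrix.mul_apply]
  have : ∀ u, PX l s u * M u t = if u = flip l s then M u t else 0 := by
    intro u
    unfold PX
    rw [eq_flip_iff]
    split_ifs <;> simp
  rw [Finset.sum_congr rfl fun u _ => this u]
  simp

theorem mul_PX (l : V) (M : Op V) (s t : V → Bool) : (M * PX l) s t = M s (flip l t) := by
  rw [Matrix.mul_apply]
  have : ∀ u, M s u * PX l u t = if u = flip l t then M s u else 0 := by
    intro u
    unfold PX
    split_ifs <;> simp
  rw [Finset.sum_congr rfl fun u _ => this u]
  simp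

theorem PX_comm (l m : V) : (PX l : Op V) * PX m = PX m * PX l := by
  ext s t
  rw [PX_mul, PX_mul]
  unfold PX
  congr 1
  apply propext
  constructor
  · intro h
    rw [eq_flip_iff] at h
    rw [eq_flip_iff, h, flip_comm]
  · intro h
    rw [eq_flip_iff] at h
    rw [eq_flip_iff, h, flip_comm]

theorem PX_sq (l : V) : (PX l : Op V) * PX l = 1 := by
  ext s t
  rw [PX_mul]
  unfold PX
  rw [Matrix.one_apply]
  congr 1
  apply propext
  rw [eq_flip_iff, flip_flip]
  exact eq_comm

theorem PZ_eq (j : V) : (PZ j : Op V) = ZD (zz j) := by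
  ext s t
  unfold PZ ZD
  simp only [Matrix.diagonal, Matrix.of_apply]

theorem PZPZ (j k : V) : (PZ j : Op V) * PZ k = ZD (fun s => zz j s * zz k s) := by
  rw [PZ_eq, PZ_eq]
  unfold ZD
  rw [Matrix.diagonal_mul_diagonal]
  congr 1
  funext s
  push_cast
  ring

theorem ZD_zE (F : V → V → Prop) :
    ZD (zE F) = (2 : ℂ)⁻¹ • ∑ j, ∑ k, if F j k then (PZ j : Op V) * PZ k else 0 := by
  ext s t
  simp only [Matrix.smul_apply, Matrix.sum_apply]
  by_cases h : s = t
  · subst h
    simp only [ZD, Matrix.diagonal_apply_eq, zE]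
    push_cast
    rw [smul_eq_mul]
    congr 1
    refine Finset.sum_congr rfl fun j _ => Finset.sum_congr rfl fun k _ => ?_
    split_ifs
    · rw [PZPZ]; simp [ZD]
    · simp
  · simp only [ZD, Matrix.diagonal_apply_ne _ h]
    symm
    rw [smul_eq_zero]
    right
    refine Finset.sum_eq_zero fun j _ => Finset.sum_eq_zero fun k _ => ?_
    split_ifs
    · rw [PZPZ, ZD, Matrix.diagonal_apply_ne _ h]
    · simp

/-- `X_C` -/
noncomputable def XC (C : Set V) : Op V := ∑ l, if l ∈ C then PX l else 0

theorem XC_eq (C : Set V) : XC C = XF (fun j (_ : V → Bool) => if j ∈ C then (1 : ℝ) else 0) := by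
  ext s t
  simp only [XC, XF, Matrix.sum_apply]
  refine Finset.sum_congr rfl fun j _ => ?_
  by_cases h1 : j ∈ C <;> by_cases h2 : s = flip j t <;> simp [h1, h2, PX]

theorem PX_ZD (l : V) (b : (V → Bool) → ℝ) (ε : ℝ) (h : ∀ s, b (flip l s) = ε * b s) :
    (PX l : Op V) * ZD b = (ε : ℂ) • (ZD b * PX l) := by
  ext s t
  rw [PX_mul, Matrix.smul_apply, mul_PX]
  unfold ZD
  by_cases hs : flip l s = t
  · have hs' : s = flip l t := by rw [← hs, flip_flip]
    rw [← hs, Matrix.diagonal_apply_eq, flip_flip, Matrix.diagonal_apply_eq, h s]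
    push_cast
    rfl
  · have hs' : s ≠ flip l t := fun h => hs (by rw [h, flip_flip])
    rw [Matrix.diagonal_apply_ne _ hs, Matrix.diagonal_apply_ne _ hs', smul_zero]

theorem pair_key (C : Set V) (j k : V) (hjk : j ≠ k) (D : Op V → Op V)
    (hD : ∀ M, D M = XC C * M - M * XC C) :
    (16 : ℂ) • D (D (PZ j * PZ k)) - D (D (D (D (PZ j * PZ k)))) =
      (48 : ℂ) • (if (j ∈ C ↔ k ∉ C) then PZ j * PZ k else 0) := by
  set B : Op V := PZ j * PZ k with hB
  set a : Op V := (if j ∈ C then PX j else 0) + (if k ∈ C then PX k else 0) with ha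
  set r : Op V := ∑ l, if (l ∈ C ∧ l ≠ j ∧ l ≠ k) then PX l else 0 with hr
  have hsum : XC C = a + r := by
    have e : ∀ l : V, (if l ∈ C then (PX l : Op V) else 0) =
        (if l = j then (if j ∈ C then (PX j : Op V) else 0) else 0) +
        (if l = k then (if k ∈ C then (PX k : Op V) else 0) else 0) +
        (if (l ∈ C ∧ l ≠ j ∧ l ≠ k) then PX l else 0) := by
      intro l
      by_cases h1 : l = j
      · subst h1
        simp [hjk]
      · by_cases h2 : l = k
        · subst h2
          simp [h1]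
        · simp [h1, h2]
    unfold XC
    rw [Finset.sum_congr rfl fun l _ => e l, Finset.sum_add_distrib, Finset.sum_add_distrib]
    simp only [Finset.sum_ite_eq', Finset.mem_univ, if_true]
    rw [ha, hr]
  have hflip : ∀ l s, (fun s => zz j s * zz k s) (flip l s) =
      (if l = j ∨ l = k then (-1 : ℝ) else 1) * (fun s => zz j s * zz k s) s := by
    intro l s
    simp only [zz_flip]
    by_cases h1 : l = j
    · subst h1
      have : k ≠ l := hjk.symm
      simp [this]
    · by_cases h2 : l = k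
      · subst h2
        have : j ≠ l := hjk
        simp [this]
      · have h3 : j ≠ l := Ne.symm h1
        have h4 : k ≠ l := Ne.symm h2
        simp [h1, h2, h3, h4]
  have hBl : ∀ l, (PX l : Op V) * B = ((if l = j ∨ l = k then (-1 : ℝ) else 1 : ℝ) : ℂ) • (B * PX l) := by
    intro l
    rw [hB, PZPZ]
    exact PX_ZD l _ _ (hflip l)
  have haB : a * B = - (B * a) := by
    rw [ha, add_mul, mul_add, neg_add]
    congr 1
    · split_ifs
      · rw [hBl]; simp
      · simp
    · split_ifs
      · rw [hBl]; simp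
      · simp
  have hrB : r * B = B * r := by
    rw [hr, Finset.sum_mul, Finset.mul_sum]
    refine Finset.sum_congr rfl fun l _ => ?_
    split_ifs with h
    · rw [hBl]; simp [h.2.1, h.2.2]
    · simp
  have hPr : ∀ m, (PX m : Op V) * r = r * PX m := by
    intro m
    rw [hr, Finset.sum_mul, Finset.mul_sum]
    refine Finset.sum_congr rfl fun l _ => ?_
    split_ifs with h
    · rw [PX_comm]
    · simp
  have har : a * r = r * a := by
    rw [ha, add_mul, mul_add]
    congr 1
    · split_ifs
      · exact hPr j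
      · simp
    · split_ifs
      · exact hPr k
      · simp
  have hpow : ∀ T : Op V, a * T = T * a → r * T = T * r → D (T * B) = (2 : ℂ) • (a * T * B) := by
    intro T h1 h2
    rw [hD, hsum]
    have e1 : (a + r) * (T * B) - T * B * (a + r) =
        a * T * B + (r * T) * B - T * (B * a) - T * (B * r) := by noncomm_ring
    have e2 : B * a = - (a * B) := by rw [haB, neg_neg]
    rw [e1, e2, ← hrB, h2]
    have e3 : a * T * B + T * r * B - T * -(a * B) - T * (r * B) = a * T * B + (T * a) * B := by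
      noncomm_ring
    rw [e3, ← h1, two_smul]
  have hDs : ∀ (c : ℂ) M, D (c • M) = c • D M := by
    intro c M
    rw [hD, hD, Matrix.mul_smul, Matrix.smul_mul, smul_sub]
  have d1 : D B = (2 : ℂ) • (a * B) := by
    have := hpow 1 (by simp) (by simp)
    simpa using this
  have d2 : D (a * B) = (2 : ℂ) • (a * a * B) := hpow a rfl har.symm
  have d3 : D (a * a * B) = (2 : ℂ) • (a * (a * a) * B) :=
    hpow (a * a) (by rw [mul_assoc]) (by rw [← mul_assoc, ← har, mul_assoc, ← har, mul_assoc])
  have d4 : D (a * (a * a) * B) = (2 : ℂ) • (a * (a * (a * a)) * B) :=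
    hpow (a * (a * a)) (by noncomm_ring) (by
      have h1 : r * (a * (a * a)) = (r * a) * (a * a) := by noncomm_ring
      rw [h1, ← har]
      have h2 : a * r * (a * a) = a * (r * a) * a := by noncomm_ring
      rw [h2, ← har]
      have h3 : a * (a * r) * a = a * a * (r * a) := by noncomm_ring
      rw [h3, ← har]
      noncomm_ring)
  have dd : D (D B) = (4 : ℂ) • (a * a * B) := by
    rw [d1, hDs, d2, smul_smul]; norm_num
  have dddd : D (D (D (D B))) = (16 : ℂ) • (a * (a * (a * a)) * B) := by
    rw [dd, hDs, d3, hDs, hDs, d4, smul_smul, smul_smul]; norm_num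
  rw [dddd, dd, smul_smul]
  have hjj := PX_sq j
  have hkk := PX_sq k
  have hjk' := PX_comm j k
  by_cases h1 : j ∈ C <;> by_cases h2 : k ∈ C
  · have hneg : ¬ (j ∈ C ↔ k ∉ C) := by tauto
    rw [if_neg hneg]
    have ha' : a = PX j + PX k := by rw [ha, if_pos h1, if_pos h2]
    have haa : a * a = (2 : ℂ) • (1 + PX j * PX k) := by
      rw [ha', add_mul, mul_add, mul_add, hjj, hkk, ← hjk', two_smul]
      abel
    have h3 : (1 + (PX j : Op V) * PX k) * (1 + PX j * PX k) = (2 : ℂ) • (1 + PX j * PX k) := by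
      have : (PX j : Op V) * PX k * (PX j * PX k) = 1 := by
        calc (PX j : Op V) * PX k * (PX j * PX k) = PX j * (PX k * PX j) * PX k := by noncomm_ring
          _ = PX j * (PX j * PX k) * PX k := by rw [hjk']
          _ = (PX j * PX j) * (PX k * PX k) := by noncomm_ring
          _ = 1 := by rw [hjj, hkk, one_mul]
      rw [add_mul, mul_add, mul_add, this, two_smul]
      simp only [one_mul, mul_one]
      abel
    have haaaa : a * (a * (a * a)) = (8 : ℂ) • (1 + PX j * PX k) := by
      have : a * (a * (a * a)) = (a * a) * (a * a) := by noncomm_ring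
      rw [this, haa, Matrix.smul_mul, Matrix.mul_smul, h3, smul_smul, smul_smul]
      norm_num
    rw [haaaa, haa, Matrix.smul_mul, Matrix.smul_mul, smul_smul, smul_smul, smul_zero, ← sub_smul]
    norm_num
  · have hpos : (j ∈ C ↔ k ∉ C) := by tauto
    rw [if_pos hpos]
    have ha' : a = PX j := by rw [ha, if_pos h1, if_neg h2, add_zero]
    rw [ha', hjj, mul_one, hjj, one_mul, ← sub_smul]
    norm_num
  · have hpos : (j ∈ C ↔ k ∉ C) := by tauto
    rw [if_pos hpos]
    have ha' : a = PX k := by rw [ha, if_neg h1, if_pos h2, zero_add]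
    rw [ha', hkk, mul_one, hkk, one_mul, ← sub_smul]
    norm_num
  · have hneg : ¬ (j ∈ C ↔ k ∉ C) := by tauto
    rw [if_neg hneg]
    have ha' : a = 0 := by rw [ha, if_neg h1, if_neg h2, add_zero]
    rw [ha']
    simp

theorem claimB (g : Submodule ℝ (Op V)) (hg : Closed g) (C : Set V) (F : V → V → Prop)
    (hi : ∀ j, ¬ F j j)
    (hC : Complex.I • XF (fun j (_ : V → Bool) => if j ∈ C then (1 : ℝ) else 0) ∈ g)
    (hF : Complex.I • ZD (zE F) ∈ g) :
    Complex.I • ZD (zE fun j k => F j k ∧ (j ∈ C ↔ k ∉ C)) ∈ g := by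
  rw [← XC_eq] at hC
  set D : Op V →ₗ[ℂ] Op V := LinearMap.mulLeft ℂ (XC C) - LinearMap.mulRight ℂ (XC C) with hDdef
  have hD : ∀ M, D M = XC C * M - M * XC C := by
    intro M
    simp [hDdef]
  have hstep : ∀ M, Complex.I • M ∈ g → Complex.I • D (D M) ∈ g := by
    intro M hM
    have h1 := hg _ hC _ hM
    have h2 := hg _ hC _ h1
    have e : Complex.I • XC C * (Complex.I • XC C * Complex.I • M - Complex.I • M * Complex.I • XC C) -
        (Complex.I • XC C * Complex.I • M - Complex.I • M * Complex.I • XC C) * Complex.I • XC C =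
        (-1 : ℝ) • (Complex.I • D (D M)) := by
      rw [hD, hD]
      simp only [Matrix.smul_mul, Matrix.mul_smul, smul_smul, smul_sub, mul_sub, sub_mul,
        Complex.I_mul_I]
      ext s t
      simp
      try ring
    rw [e] at h2
    have := g.smul_mem (-1 : ℝ) h2
    rw [smul_smul] at this
    simpa using this
  have h2 := hstep _ hF
  have h4 := hstep _ h2
  have h5 : Complex.I • ((16 : ℂ) • D (D (ZD (zE F))) - D (D (D (D (ZD (zE F)))))) ∈ g := by
    have := g.sub_mem (g.smul_mem (16 : ℝ) h2) h4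
    convert this using 1
    ext s t
    simp
    ring
  have h6 : (16 : ℂ) • D (D (ZD (zE F))) - D (D (D (D (ZD (zE F))))) =
      (48 : ℂ) • ZD (zE fun j k => F j k ∧ (j ∈ C ↔ k ∉ C)) := by
    rw [ZD_zE, ZD_zE]
    simp only [map_smul, map_sum]
    rw [smul_comm (16 : ℂ), smul_comm (48 : ℂ), ← smul_sub]
    congr 1
    rw [Finset.smul_sum, Finset.smul_sum, ← Finset.sum_sub_distrib]
    refine Finset.sum_congr rfl fun j _ => ?_
    rw [Finset.smul_sum, Finset.smul_sum, ← Finset.sum_sub_distrib]
    refine Finset.sum_congr rfl fun k _ => ?_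
    by_cases hjk : F j k
    · have hne : j ≠ k := by rintro rfl; exact hi _ hjk
      have := pair_key C j k hne D hD
      simp only [hjk, if_true, true_and]
      exact this
    · simp [hjk]
  rw [h6] at h5
  have := g.smul_mem (1 / 48 : ℝ) h5
  convert this using 1
  ext s t
  simp
  ring

end Pool.Agent.T2H10.QA
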