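import Pool.Agent.T2H10.QA.B

set_option autoImplicit false

open scoped Classical

namespace Pool.Agent.T2H10.QA

variable {V : Type} [Fintype V]

/-- the extension of a configuration by `false` at `v` -/
noncomputable def ext0 (v : V) (s : {w : V // w ≠ v} → Bool) : V → Bool :=
  fun w => if h : w ≠ v then s ⟨w, h⟩ else false

theorem ext0_inj (v : V) : Function.Injective (ext0 v) := by
  intro s t h
  funext w
  have := congrFun h w.1
  simpa [ext0, w.2] using this

theorem ext0_self (v : V) (s : {w : V // w ≠ v} → Bool) : ext0 v s v = false := by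
  simp [ext0]

theorem ext0_ne (v : V) (s : {w : V // w ≠ v} → Bool) (w : {w : V // w ≠ v}) :
    ext0 v s w.1 = s w := by
  simp [ext0, w.2]

theorem mem_range_ext0 (v : V) (t : V → Bool) (h : t v = false) : t ∈ Set.range (ext0 v) := by
  refine ⟨fun w => t w.1, ?_⟩
  funext w
  by_cases hw : w = v
  · subst hw; simp [ext0, h]
  · simp [ext0, hw]

/-- the block of a matrix with `Z_v = 1` -/
noncomputable def blk (v : V) : Op V →ₗ[ℝ] Op {w : V // w ≠ v} where
  toFun A := A.submatrix (ext0 v) (ext0 v)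
  map_add' _ _ := rfl
  map_smul' _ _ := rfl

/-- block diagonal matrices -/
noncomputable def BD (v : V) : Submodule ℝ (Op V) where
  carrier := {A | ∀ s t, s v ≠ t v → A s t = 0}
  add_mem' := by
    intro A B hA hB s t h
    rw [Matrix.add_apply, hA s t h, hB s t h, add_zero]
  zero_mem' := by
    intro s t _
    rfl
  smul_mem' := by
    intro c A hA s t h
    rw [Matrix.smul_apply, hA s t h, smul_zero]

theorem BD_mul (v : V) (A B : Op V) (hA : A ∈ BD v) (hB : B ∈ BD v) : A * B ∈ BD v := by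
  intro s t h
  rw [Matrix.mul_apply]
  refine Finset.sum_eq_zero fun u _ => ?_
  by_cases h1 : s v = u v
  · rw [hB u t (by rw [← h1]; exact h), mul_zero]
  · rw [hA s u h1, zero_mul]

/-- the product, with the instances of the general case -/
noncomputable def gmul {W : Type} [Fintype W] (A B : Op W) : Op W := A * B

theorem gmul_apply {W : Type} [Fintype W] (A B : Op W) (s t : W → Bool) :
    gmul A B s t = ∑ u, A s u * B u t := by
  unfold gmul
  rw [Matrix.mul_apply]

theorem sum_inj {ι κ : Type} (i1 : Fintype ι) (i2 : Fintype κ) (e : ι → κ)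
    (he : Function.Injective e) (f : ι → ℂ) (g : κ → ℂ) (h' : ∀ i, i ∉ Set.range e → g i = 0)
    (h : ∀ i, f i = g (e i)) : ∑ i, f i = ∑ i, g i :=
  Fintype.sum_of_injective e he f g h' h

theorem blk_mul (v : V) (A B : Op V) (hA : A ∈ BD v) : blk v (A * B) = gmul (blk v A) (blk v B) := by
  ext s t
  show (A * B) (ext0 v s) (ext0 v t) = gmul (blk v A) (blk v B) s t
  rw [gmul_apply, Matrix.mul_apply]
  symm
  refine sum_inj _ _ (ext0 v) (ext0_inj v) _ _ ?_ ?_
  · intro u hu
    have h1 : u v ≠ false := fun h => hu (mem_range_ext0 v u h)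
    rw [hA (ext0 v s) u (by rw [ext0_self]; exact fun h => h1 h.symm), zero_mul]
  · intro u
    rfl

theorem BD_closed (v : V) : Closed (BD v) := by
  intro X hX Y hY
  exact (BD v).sub_mem (BD_mul v X Y hX hY) (BD_mul v Y X hY hX)

theorem zz_ext0_self (v : V) (s : {w : V // w ≠ v} → Bool) : zz v (ext0 v s) = 1 := by
  simp [zz, ext0_self]

theorem zz_ext0_ne (v : V) (s : {w : V // w ≠ v} → Bool) (w : {w : V // w ≠ v}) :
    zz w.1 (ext0 v s) = zz w s := by
  simp [zz, ext0_ne]

theorem flip_ext0 (v : V) (w : {w : V // w ≠ v}) (s : {w : V // w ≠ v} → Bool) :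
    flip w.1 (ext0 v s) = ext0 v (flip w s) := by
  funext x
  by_cases hx : x = v
  · subst hx
    have : x ≠ w.1 := fun h => w.2 h.symm
    simp [flip, this, ext0_self]
  · by_cases hxw : x = w.1
    · subst hxw
      simp [flip, ext0, w.2]
    · have h2 : (⟨x, hx⟩ : {w : V // w ≠ v}) ≠ w := fun h => hxw (by rw [← h])
      simp [flip, ext0, hx, hxw, h2]

/-- the mixer without `X_v` -/
noncomputable def HM' (v : V) : Op V := HM V - PX v

theorem HM'_eq (v : V) : HM' v = ∑ w : {w : V // w ≠ v}, (PX w.1 : Op V) := by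
  unfold HM' HM
  rw [Fintype.sum_eq_add_sum_subtype_ne (fun j => (PX j : Op V)) v]
  abel

theorem HM'_BD (v : V) : HM' v ∈ BD v := by
  rw [HM'_eq]
  refine Submodule.sum_mem _ fun w _ => ?_
  intro s t h
  unfold PX
  rw [if_neg]
  rintro rfl
  apply h
  have : v ≠ w.1 := fun h => w.2 h.symm
  simp [flip, this]

theorem ZD_BD (v : V) (z : (V → Bool) → ℝ) : ZD z ∈ BD v := by
  intro s t h
  unfold ZD
  rw [Matrix.diagonal_apply_ne]
  rintro rfl
  exact h rfl

theorem blk_HM' (v : V) : blk v (HM' v) = HM {w : V // w ≠ v} := by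
  rw [HM'_eq, map_sum]
  unfold HM
  refine Finset.sum_congr rfl fun w _ => ?_
  ext s t
  show PX w.1 (ext0 v s) (ext0 v t) = PX w s t
  unfold PX
  rw [flip_ext0]
  by_cases h : s = flip w t
  · rw [if_pos h, if_pos (by rw [h])]
  · rw [if_neg h, if_neg (fun h' => h (ext0_inj v h'))]

theorem HP_eq (Γ : SimpleGraph V) : HP Γ = ZD (zE fun j k => Γ.Adj j k) := by
  rw [ZD_zE]
  rfl

theorem zE_ext0 (Γ : SimpleGraph V) (v : V) (s : {w : V // w ≠ v} → Bool) :
    zE (fun j k => Γ.Adj j k) (ext0 v s) =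
      zE (fun (j k : {w : V // w ≠ v}) => Γ.Adj j.1 k.1) s +
        ∑ w : {w : V // w ≠ v}, if Γ.Adj v w.1 then zz w s else 0 := by
  unfold zE
  rw [Fintype.sum_eq_add_sum_subtype_ne (fun j => ∑ k, if Γ.Adj j k then
    zz j (ext0 v s) * zz k (ext0 v s) else 0) v]
  have h1 : (∑ k, if Γ.Adj v k then zz v (ext0 v s) * zz k (ext0 v s) else 0) =
      ∑ w : {w : V // w ≠ v}, if Γ.Adj v w.1 then zz w s else 0 := by
    rw [Fintype.sum_eq_add_sum_subtype_ne (fun k => if Γ.Adj v k then
      zz v (ext0 v s) * zz k (ext0 v s) else 0) v]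
    simp only [SimpleGraph.irrefl, if_false, zero_add, zz_ext0_self, one_mul, zz_ext0_ne]
  have h2 : ∀ j : {w : V // w ≠ v}, (∑ k, if Γ.Adj j.1 k then
      zz j.1 (ext0 v s) * zz k (ext0 v s) else 0) = (if Γ.Adj v j.1 then zz j s else 0) +
        ∑ k : {w : V // w ≠ v}, if Γ.Adj j.1 k.1 then zz j s * zz k s else 0 := by
    intro j
    rw [Fintype.sum_eq_add_sum_subtype_ne (fun k => if Γ.Adj j.1 k then
      zz j.1 (ext0 v s) * zz k (ext0 v s) else 0) v]
    simp only [zz_ext0_self, mul_one, zz_ext0_ne, Γ.adj_comm j.1 v]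
  rw [h1, Finset.sum_congr rfl fun j _ => h2 j, Finset.sum_add_distrib]
  ring

theorem ZD_apply (z : (V → Bool) → ℝ) (s t : V → Bool) :
    ZD z s t = if s = t then ((z s : ℝ) : ℂ) else 0 := by
  unfold ZD
  rw [Matrix.diagonal_apply]

theorem ZD_add (y z : (V → Bool) → ℝ) : ZD (fun s => y s + z s) = ZD y + ZD z := by
  ext s t
  rw [Matrix.add_apply, ZD_apply, ZD_apply, ZD_apply]
  split_ifs
  · push_cast; ring
  · simp

theorem ZD_smul (y : (V → Bool) → ℝ) : ZD (fun s => 2⁻¹ * y s) = (2 : ℂ)⁻¹ • ZD y := by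
  ext s t
  rw [Matrix.smul_apply, ZD_apply, ZD_apply]
  split_ifs
  · push_cast; rw [smul_eq_mul]
  · simp

theorem ZD_sum {ι : Type} [Fintype ι] (y : ι → (V → Bool) → ℝ) :
    ZD (fun s => ∑ i, y i s) = ∑ i, ZD (y i) := by
  ext s t
  rw [Matrix.sum_apply, ZD_apply]
  simp only [ZD_apply]
  split_ifs
  · push_cast; rfl
  · simp

theorem PZPZ_sub (v : V) (j k : {w : V // w ≠ v}) :
    (PZ j : Op {w : V // w ≠ v}) * PZ k = ZD (fun s => zz j s * zz k s) := by
  ext s t
  rw [Matrix.mul_apply, PZ_eq, PZ_eq, ZD_apply]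
  simp only [ZD_apply]
  rw [Finset.sum_eq_single s]
  · by_cases h : s = t
    · subst h
      simp
    · simp [h]
  · intro u _ hu
    rw [if_neg (Ne.symm hu), zero_mul]
  · intro h
    exact absurd (Finset.mem_univ _) h

theorem HPred_eq (Γ : SimpleGraph V) (v : V) : HPred Γ v =
    ZD (fun s => zE (fun (j k : {w : V // w ≠ v}) => Γ.Adj j.1 k.1) s +
        ∑ w : {w : V // w ≠ v}, if Γ.Adj v w.1 then zz w s else 0) := by
  have e1 : ∀ j k : {w : V // w ≠ v}, (if Γ.Adj j.1 k.1 then
      (PZ j : Op {w : V // w ≠ v}) * PZ k else 0) =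
      ZD (fun s => if Γ.Adj j.1 k.1 then zz j s * zz k s else 0) := by
    intro j k
    by_cases h : Γ.Adj j.1 k.1
    · simp only [h, if_true]
      exact PZPZ_sub v j k
    · simp only [h, if_false]
      ext s t
      rw [ZD_apply]
      simp
  have e2 : ∀ w : {w : V // w ≠ v}, (if Γ.Adj v w.1 then (PZ w : Op {w : V // w ≠ v}) else 0) =
      ZD (fun s => if Γ.Adj v w.1 then zz w s else 0) := by
    intro w
    by_cases h : Γ.Adj v w.1
    · simp only [h, if_true]
      exact PZ_eq w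
    · simp only [h, if_false]
      ext s t
      rw [ZD_apply]
      simp
  unfold HPred
  simp only [e1, e2]
  rw [ZD_add, ZD_sum]
  unfold zE
  rw [ZD_smul, ZD_sum]
  simp only [ZD_sum]

theorem blk_HP (Γ : SimpleGraph V) (v : V) : blk v (HP Γ) = HPred Γ v := by
  rw [HP_eq, HPred_eq]
  ext s t
  show ZD _ (ext0 v s) (ext0 v t) = _
  unfold ZD
  by_cases h : s = t
  · subst h
    rw [Matrix.diagonal_apply_eq, Matrix.diagonal_apply_eq, zE_ext0]
  · rw [Matrix.diagonal_apply_ne _ h, Matrix.diagonal_apply_ne _ (fun h' => h (ext0_inj v h'))]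

/-- if `i X_v` is in the standard algebra then the reduced algebra at `v` has smaller dimension -/
theorem finrank_lt (Γ : SimpleGraph V) (v : V) (hv : Complex.I • PX v ∈ dla Γ) :
    Module.finrank ℝ (dlaRed Γ v) < Module.finrank ℝ (dla Γ) := by
  set h : Submodule ℝ (Op V) := lieGen (Complex.I • HP Γ) (Complex.I • HM' v) with hh
  have hle : h ≤ dla Γ := by
    refine lieGen_le _ _ _ (left_mem_lieGen _ _) ?_ (closed_lieGen _ _)
    unfold HM'
    rw [smul_sub]
    exact (dla Γ).sub_mem (right_mem_lieGen _ _) hv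
  have hI : ∀ A : Op V, A ∈ BD v → Complex.I • A ∈ BD v := by
    intro A hA s t hst
    rw [Matrix.smul_apply, hA s t hst, smul_zero]
  have hBD : h ≤ BD v := by
    refine lieGen_le _ _ _ (hI _ ?_) (hI _ (HM'_BD v)) (BD_closed v)
    rw [HP_eq]
    exact ZD_BD v _
  have hlt : h < dla Γ := by
    refine lt_of_le_of_ne hle fun heq => ?_
    have h1 : Complex.I • PX v ∈ BD v := hBD (heq ▸ hv)
    have h2 := h1 (flip v fun _ => false) (fun _ => false) (by simp [flip])
    simp [PX] at h2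
  have hmap : dlaRed Γ v ≤ h.map (blk v) := by
    refine lieGen_le _ _ _ ?_ ?_ ?_
    · refine ⟨Complex.I • HP Γ, left_mem_lieGen _ _, ?_⟩
      rw [← blk_HP]
      rfl
    · refine ⟨Complex.I • HM' v, right_mem_lieGen _ _, ?_⟩
      rw [← blk_HM']
      rfl
    · rintro _ ⟨A, hA, rfl⟩ _ ⟨B, hB, rfl⟩
      refine ⟨A * B - B * A, closed_lieGen _ _ A hA B hB, ?_⟩
      rw [map_sub, blk_mul v A B (hBD hA), blk_mul v B A (hBD hB)]
      rfl
  calc Module.finrank ℝ (dlaRed Γ v) ≤ Module.finrank ℝ (h.map (blk v)) :=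
        Submodule.finrank_mono hmap
    _ ≤ Module.finrank ℝ h := Submodule.finrank_map_le _ _
    _ < Module.finrank ℝ (dla Γ) := Submodule.finrank_lt_finrank_of_lt hlt

/-- the sum of `X_j` over a parity-definable set is in the standard algebra -/
theorem mem_of_parDef (Γ : SimpleGraph V) (C : Set V) (hC : ParDef Γ C) :
    Complex.I • XF (fun j (_ : V → Bool) => if j ∈ C then (1 : ℝ) else 0) ∈ dla Γ := by
  induction hC with
  | univ =>
    have e : HM V = XC (Set.univ : Set V) := by simp [XC, HM]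
    have h : Complex.I • HM V ∈ dla Γ := right_mem_lieGen _ _
    rw [e, XC_eq] at h
    exact h
  | diff C D _ _ hDC ihC ihD =>
    have := (dla Γ).sub_mem ihC ihD
    rw [← smul_sub] at this
    convert this using 2
    ext s t
    simp only [XF, Matrix.sub_apply, ← Finset.sum_sub_distrib]
    refine Finset.sum_congr rfl fun j _ => ?_
    have h1 : j ∈ D → j ∈ C := fun h => hDC h
    by_cases h2 : j ∈ C <;> by_cases h3 : j ∈ D <;> by_cases h4 : s = flip j t <;>
      simp_all
  | odd C L _ _ ihC ihL =>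
    have hL : ∀ L : List (Set V), (∀ D ∈ L, Complex.I • XF (fun j (_ : V → Bool) =>
        if j ∈ D then (1 : ℝ) else 0) ∈ dla Γ) →
        Complex.I • ZD (zE fun j k => Γ.Adj j k ∧ ∀ D ∈ L, (j ∈ D ↔ k ∉ D)) ∈ dla Γ := by
      intro L
      induction L with
      | nil =>
        intro _
        have : (fun j k => Γ.Adj j k ∧ ∀ D ∈ ([] : List (Set V)), (j ∈ D ↔ k ∉ D)) =
            fun j k => Γ.Adj j k := by
          funext j k
          simp
        rw [this, ← HP_eq]
        exact left_mem_lieGen _ _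
      | cons D L ih =>
        intro hDL
        have h1 := ih fun D hD => hDL D (List.mem_cons_of_mem _ hD)
        have h2 := claimB (dla Γ) (closed_lieGen _ _) D _ (fun j h => Γ.irrefl h.1)
          (hDL D List.mem_cons_self) h1
        have : (fun j k => Γ.Adj j k ∧ ∀ E ∈ D :: L, (j ∈ E ↔ k ∉ E)) =
            fun j k => (Γ.Adj j k ∧ ∀ D ∈ L, (j ∈ D ↔ k ∉ D)) ∧ (j ∈ D ↔ k ∉ D) := by
          funext j k
          simp only [List.mem_cons, forall_eq_or_imp]
          apply propext
          tauto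
        rw [this]
        exact h2
    have hsym : ∀ j k, (Γ.Adj j k ∧ ∀ D ∈ L, (j ∈ D ↔ k ∉ D)) →
        (Γ.Adj k j ∧ ∀ D ∈ L, (k ∈ D ↔ j ∉ D)) := by
      intro j k h
      exact ⟨h.1.symm, fun D hD => by have := h.2 D hD; tauto⟩
    exact claimA (dla Γ) (closed_lieGen _ _) C
      (fun j k => Γ.Adj j k ∧ ∀ D ∈ L, (j ∈ D ↔ k ∉ D)) hsym (fun j h => Γ.irrefl h.1) ihC (hL L ihL)
      _ (fun j => Iff.rfl)

/-- **Main theorem.** -/
theorem main (Γ : SimpleGraph V) (v : V) (hv : ParDef Γ {v}) :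
    Module.finrank ℝ (dlaRed Γ v) < Module.finrank ℝ (dla Γ) := by
  refine finrank_lt Γ v ?_
  have := mem_of_parDef Γ {v} hv
  rw [← XC_eq] at this
  have h2 : XC ({v} : Set V) = PX v := by
    simp [XC]
  rwa [h2] at this

end Pool.Agent.T2H10.QA
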