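import Mathlib

/-!
# Standard and reduced Lie algebras of MaxCut-QAOA (MP_debdb1_mp): definitions
-/

set_option autoImplicit false

open scoped Classical

namespace Pool.Agent.T2H10.QA

/-- operators on the qubits at the elements of `V`, as matrices indexed by the configurations
`V → Bool` (`false` is the basis vector `0` and `true` the basis vector `1`) -/
abbrev Op (V : Type) := Matrix (V → Bool) (V → Bool) ℂ

/-- the configuration with the bit at `j` changed -/
noncomputable def flip {V : Type} (j : V) (t : V → Bool) : V → Bool := Function.update t j (!t j)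

/-- the eigenvalue of `Z` at `j` -/
noncomputable def zz {V : Type} (j : V) (t : V → Bool) : ℝ := if t j then -1 else 1

/-- the Pauli matrix `X` at `j` -/
noncomputable def PX {V : Type} (j : V) : Op V := fun s t => if s = flip j t then 1 else 0

/-- the Pauli matrix `Z` at `j` -/
noncomputable def PZ {V : Type} (j : V) : Op V := Matrix.diagonal fun s => ((zz j s : ℝ) : ℂ)

/-- the MaxCut operator `∑ Z_j Z_k` over the edges (every edge occurs twice in the double sum) -/
noncomputable def HP {V : Type} [Fintype V] (Γ : SimpleGraph V) : Op V :=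
  (2 : ℂ)⁻¹ • ∑ j, ∑ k, if Γ.Adj j k then PZ j * PZ k else 0

/-- the mixer `∑ X_j` -/
noncomputable def HM (V : Type) [Fintype V] : Op V := ∑ j, PX j

/-- the smallest real subspace which contains `A` and `B` and is closed under commutators -/
noncomputable def lieGen {V : Type} [Fintype V] (A B : Op V) : Submodule ℝ (Op V) :=
  sInf {W | A ∈ W ∧ B ∈ W ∧ ∀ X ∈ W, ∀ Y ∈ W, X * Y - Y * X ∈ W}

/-- the standard dynamical Lie algebra of the graph -/
noncomputable def dla {V : Type} [Fintype V] (Γ : SimpleGraph V) : Submodule ℝ (Op V) :=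
  lieGen (Complex.I • HP Γ) (Complex.I • HM V)

/-- the MaxCut operator after substituting `Z_v = 1` -/
noncomputable def HPred {V : Type} [Fintype V] (Γ : SimpleGraph V) (v : V) : Op {w : V // w ≠ v} :=
  (2 : ℂ)⁻¹ • (∑ j : {w : V // w ≠ v}, ∑ k : {w : V // w ≠ v},
    if Γ.Adj j.1 k.1 then PZ j * PZ k else 0) +
    ∑ w : {w : V // w ≠ v}, if Γ.Adj v w.1 then PZ w else 0

/-- the reduced dynamical Lie algebra at the vertex `v` -/
noncomputable def dlaRed {V : Type} [Fintype V] (Γ : SimpleGraph V) (v : V) :
    Submodule ℝ (Op {w : V // w ≠ v}) :=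
  lieGen (Complex.I • HPred Γ v) (Complex.I • HM {w : V // w ≠ v})

/-- sets of vertices obtained by parity refinement: the set of all vertices, differences of such
sets, and the vertices of such a set `C` with an odd number of neighbours across the cuts given by a
list `L` of such sets (a neighbour `k` of `j` is counted if each set in `L` contains exactly one of
`j`, `k`) -/
inductive ParDef {V : Type} (Γ : SimpleGraph V) : Set V → Prop
  | univ : ParDef Γ Set.univ
  | diff (C D : Set V) : ParDef Γ C → ParDef Γ D → D ⊆ C → ParDef Γ (C \ D)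
  | odd (C : Set V) (L : List (Set V)) : ParDef Γ C → (∀ D ∈ L, ParDef Γ D) →
      ParDef Γ {j | j ∈ C ∧ Odd {k | Γ.Adj j k ∧ ∀ D ∈ L, (j ∈ D ↔ k ∉ D)}.ncard}

end Pool.Agent.T2H10.QA
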